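import Pool.Agent.H887.BK.D2

/-!
# S_KExp and S_KGr (helper200)

The kernel and the truncated exponentials: no fraction field is needed, everything is done modulo
`T ^ M` with the truncated exponentials.
-/

set_option autoImplicit false
set_option linter.unusedSectionVars false
set_option linter.unusedVariables false

namespace Pool.Agent.H200.KE

open Pool.Agent.H425 Pool.Agent.H887.BK
open MvPolynomial (IsHomogeneous expand pderiv)

section basic

variable {ι A : Type} [CommRing A]

/-- all coefficients are divisible by `q` -/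
def Dv (q : A) (F : MvPowerSeries ι A) : Prop := ∀ w, q ∣ MvPowerSeries.coeff w F

lemma Dv.add {q : A} {F G : MvPowerSeries ι A} (hF : Dv q F) (hG : Dv q G) : Dv q (F + G) := by
  intro w
  rw [map_add]
  exact dvd_add (hF w) (hG w)

lemma Dv.sub {q : A} {F G : MvPowerSeries ι A} (hF : Dv q F) (hG : Dv q G) : Dv q (F - G) := by
  intro w
  rw [map_sub]
  exact dvd_sub (hF w) (hG w)

lemma Dv.mul_left {q : A} {F : MvPowerSeries ι A} (hF : Dv q F) (G : MvPowerSeries ι A) :
    Dv q (G * F) := by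
  classical
  intro w
  rw [MvPowerSeries.coeff_mul]
  exact Finset.dvd_sum fun x _ => Dvd.dvd.mul_left (hF _) _

lemma Dv.C {q a : A} (h : q ∣ a) : Dv q (MvPowerSeries.C a : MvPowerSeries ι A) := by
  classical
  intro w
  rw [MvPowerSeries.coeff_C]
  split_ifs
  · exact h
  · exact dvd_zero _

lemma eui_C_mul (i : ι) (a : A) (F : MvPowerSeries ι A) :
    eui i (MvPowerSeries.C a * F) = MvPowerSeries.C a * eui i F := by
  ext w
  rw [coeff_eui, MvPowerSeries.coeff_C_mul, MvPowerSeries.coeff_C_mul, coeff_eui]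
  ring

lemma eui_sub (i : ι) (F G : MvPowerSeries ι A) : eui i (F - G) = eui i F - eui i G := by
  ext w
  rw [coeff_eui, map_sub, map_sub, coeff_eui, coeff_eui]
  ring

lemma eui_sum {T : Type} (i : ι) (s : Finset T) (F : T → MvPowerSeries ι A) :
    eui i (∑ t ∈ s, F t) = ∑ t ∈ s, eui i (F t) := by
  ext w
  rw [coeff_eui, map_sum, map_sum, Finset.mul_sum]
  rfl

lemma eui_pow (i : ι) (F : MvPowerSeries ι A) (m : ℕ) :
    eui i (F ^ (m + 1)) = ((m + 1 : ℕ) : MvPowerSeries ι A) * F ^ m * eui i F := by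
  induction m with
  | zero => simp
  | succ m ih =>
    rw [pow_succ, eui_mul, ih]
    push_cast
    ring

lemma eui_monomial (i : ι) (s : ι →₀ ℕ) (a : A) :
    eui i (MvPowerSeries.monomial s a) = MvPowerSeries.monomial s ((s i : A) * a) := by
  classical
  ext w
  rw [coeff_eui, MvPowerSeries.coeff_monomial, MvPowerSeries.coeff_monomial]
  split_ifs with h
  · rw [h]
  · rw [mul_zero]

/-- the truncated exponential -/
noncomputable def Ex (M : ℕ) (τ : A) (G : MvPowerSeries ι A) : MvPowerSeries ι A :=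
  ∑ m ∈ Finset.range M, MvPowerSeries.C (((M.factorial / m.factorial : ℕ) : A) * τ ^ m) * G ^ m

lemma coe_Eh (M : ℕ) (τ : A) (g : MvPolynomial ι A) :
    ((Eh M τ g : MvPolynomial ι A) : MvPowerSeries ι A) = Ex M τ (g : MvPowerSeries ι A) := by
  rw [Eh, Ex, ← MvPolynomial.coeToMvPowerSeries.ringHom_apply, map_sum]
  refine Finset.sum_congr rfl fun m _ => ?_
  rw [map_mul, map_pow, MvPolynomial.coeToMvPowerSeries.ringHom_apply,
    MvPolynomial.coeToMvPowerSeries.ringHom_apply, MvPolynomial.coe_C]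

lemma fac_div {M m : ℕ} (h : m + 1 ≤ M) :
    M.factorial / (m + 1).factorial * (m + 1) = M.factorial / m.factorial := by
  have h1 : (m + 1).factorial ∣ M.factorial := Nat.factorial_dvd_factorial h
  obtain ⟨k, hk⟩ := h1
  rw [hk, Nat.mul_div_cancel_left _ (Nat.factorial_pos _), Nat.factorial_succ]
  have h2 : (m + 1) * m.factorial * k = m.factorial * (k * (m + 1)) := by ring
  rw [h2, Nat.mul_div_cancel_left _ (Nat.factorial_pos _)]

lemma eui_Ex (i : ι) (k : ℕ) (τ : A) (G : MvPowerSeries ι A) :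
    eui i (Ex (k + 1) τ G) = MvPowerSeries.C τ * eui i G * Ex (k + 1) τ G -
      MvPowerSeries.C (((k + 1 : ℕ) : A) * τ ^ (k + 1)) * (G ^ k * eui i G) := by
  have h1 : eui i (Ex (k + 1) τ G) = ∑ m ∈ Finset.range k,
      MvPowerSeries.C ((((k + 1).factorial / m.factorial : ℕ) : A) * τ ^ (m + 1)) *
        (G ^ m * eui i G) := by
    rw [Ex, eui_sum, Finset.sum_range_succ']
    have h0 : eui i (MvPowerSeries.C ((((k + 1).factorial / Nat.factorial 0 : ℕ) : A) * τ ^ 0) *
        G ^ 0) = 0 := by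
      rw [eui_C_mul, pow_zero, pow_zero, eui_one, mul_zero]
    rw [h0, add_zero]
    refine Finset.sum_congr rfl fun m hm => ?_
    rw [Finset.mem_range] at hm
    rw [eui_C_mul, eui_pow, ← fac_div (M := k + 1) (m := m) (by omega)]
    have h2 : ((m + 1 : ℕ) : MvPowerSeries ι A) = MvPowerSeries.C ((m + 1 : ℕ) : A) :=
      (map_natCast _ _).symm
    rw [h2]
    push_cast
    simp only [map_mul]
    ring
  have h3 : Ex (k + 1) τ G = ∑ m ∈ Finset.range k,
      MvPowerSeries.C ((((k + 1).factorial / m.factorial : ℕ) : A) * τ ^ m) * G ^ m +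
      MvPowerSeries.C (((k + 1 : ℕ) : A) * τ ^ k) * G ^ k := by
    rw [Ex, Finset.sum_range_succ]
    congr 4
    rw [Nat.factorial_succ, Nat.mul_div_cancel _ (Nat.factorial_pos _)]
  rw [h1, h3, mul_add, Finset.mul_sum]
  have h4 : MvPowerSeries.C τ * eui i G * (MvPowerSeries.C (((k + 1 : ℕ) : A) * τ ^ k) * G ^ k) -
      MvPowerSeries.C (((k + 1 : ℕ) : A) * τ ^ (k + 1)) * (G ^ k * eui i G) = 0 := by
    rw [pow_succ]
    simp only [map_mul]
    ring
  rw [add_sub_assoc, h4, add_zero]
  refine Finset.sum_congr rfl fun m _ => ?_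
  rw [pow_succ]
  simp only [map_mul]
  ring

lemma constCoeff_Ex (M : ℕ) (hM : 0 < M) (τ : A) (G : MvPowerSeries ι A)
    (hG : MvPowerSeries.constantCoeff G = 0) :
    MvPowerSeries.constantCoeff (Ex M τ G) = (M.factorial : A) := by
  rw [Ex, map_sum, Finset.sum_eq_single 0]
  · rw [map_mul, map_pow, MvPowerSeries.constantCoeff_C, pow_zero, pow_zero, mul_one, mul_one,
      Nat.factorial_zero, Nat.div_one]
  · intro m _ hm
    rw [map_mul, map_pow, hG, zero_pow hm, mul_zero]
  · intro h
    exact absurd (Finset.mem_range.2 hM) h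

/-- coefficients of a product of a polynomial and a power series -/
lemma coeff_poly_mul (P : MvPolynomial ι A) (F : MvPowerSeries ι A) (w : ι →₀ ℕ)
    (Z : Finset (ι →₀ ℕ)) (hZ : P.support ⊆ Z) :
    MvPowerSeries.coeff w ((P : MvPowerSeries ι A) * F) =
      ∑ s ∈ Z, MvPolynomial.coeff s P *
        (open Classical in if s ≤ w then MvPowerSeries.coeff (w - s) F else 0) := by
  classical
  have h1 : (P : MvPowerSeries ι A) = ∑ s ∈ P.support, MvPowerSeries.monomial s (P.coeff s) := by
    conv_lhs => rw [MvPolynomial.as_sum P]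
    rw [← MvPolynomial.coeToMvPowerSeries.ringHom_apply, map_sum]
    refine Finset.sum_congr rfl fun s _ => ?_
    rw [MvPolynomial.coeToMvPowerSeries.ringHom_apply, MvPolynomial.coe_monomial]
  rw [h1, Finset.sum_mul, map_sum]
  have h2 : ∀ s ∈ Z, s ∉ P.support → MvPolynomial.coeff s P *
        (if s ≤ w then MvPowerSeries.coeff (w - s) F else 0) = 0 := by
    intro s _ hs
    rw [MvPolynomial.notMem_support_iff] at hs
    rw [hs, zero_mul]
  rw [← Finset.sum_subset hZ h2]
  refine Finset.sum_congr rfl fun s _ => ?_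
  rw [MvPowerSeries.coeff_monomial_mul, mul_ite, mul_zero]

/-- coefficients of a product of an expanded polynomial and a power series -/
lemma coeff_expand_mul (p : ℕ) (P : MvPolynomial ι A) (F : MvPowerSeries ι A) (w : ι →₀ ℕ) :
    MvPowerSeries.coeff w (((expand p P : MvPolynomial ι A) : MvPowerSeries ι A) * F) =
      ∑ s ∈ P.support, MvPolynomial.coeff s P *
        (open Classical in if p • s ≤ w then MvPowerSeries.coeff (w - p • s) F else 0) := by
  classical
  have h1 : ((expand p P : MvPolynomial ι A) : MvPowerSeries ι A) =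
      ∑ s ∈ P.support, MvPowerSeries.monomial (p • s) (P.coeff s) := by
    conv_lhs => rw [MvPolynomial.as_sum P, map_sum]
    rw [← MvPolynomial.coeToMvPowerSeries.ringHom_apply, map_sum]
    refine Finset.sum_congr rfl fun s _ => ?_
    rw [MvPolynomial.coeToMvPowerSeries.ringHom_apply, MvPolynomial.expand_monomial,
      MvPolynomial.coe_monomial]
  rw [h1, Finset.sum_mul, map_sum]
  refine Finset.sum_congr rfl fun s _ => ?_
  rw [MvPowerSeries.coeff_monomial_mul, mul_ite, mul_zero]

lemma expand_Eh (p M : ℕ) (τ : A) (g : MvPolynomial ι A) :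
    expand p (Eh M τ g) = Eh M τ (expand p g) := by
  rw [Eh, Eh, map_sum]
  refine Finset.sum_congr rfl fun m _ => ?_
  rw [map_mul, map_pow, MvPolynomial.expand_C]

lemma coeff_Eh_smul (M d : ℕ) (τ l : A) (g : MvPolynomial ι A) (hg : g.IsHomogeneous d)
    (s : ι →₀ ℕ) :
    MvPolynomial.coeff s (Eh M (l ^ d * τ) g) = l ^ s.degree * MvPolynomial.coeff s (Eh M τ g) := by
  rw [Eh, Eh, MvPolynomial.coeff_sum, MvPolynomial.coeff_sum, Finset.mul_sum]
  refine Finset.sum_congr rfl fun m _ => ?_
  rw [MvPolynomial.coeff_C_mul, MvPolynomial.coeff_C_mul]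
  by_cases h : s.degree = d * m
  · rw [h, mul_pow, ← pow_mul]
    ring
  · rw [(hg.pow m).coeff_eq_zero h]
    ring

end basic

section form

variable {ι : Type} [Fintype ι] [DecidableEq ι] {A : Type} [CommRing A]

lemma form_hom (d : ℕ) (c : (ι →₀ ℕ) → A) : (form d c).IsHomogeneous d :=
  MvPolynomial.IsHomogeneous.sum _ _ _ fun s hs =>
    MvPolynomial.isHomogeneous_monomial _ ((mem_Sd d s).1 hs)

lemma coe_form (d : ℕ) (c : (ι →₀ ℕ) → A) : ((form d c : MvPolynomial ι A) : MvPowerSeries ι A) =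
    ∑ s ∈ Sd ι d, MvPowerSeries.monomial s (c s) := by
  rw [form, ← MvPolynomial.coeToMvPowerSeries.ringHom_apply, map_sum]
  refine Finset.sum_congr rfl fun s _ => ?_
  rw [MvPolynomial.coeToMvPowerSeries.ringHom_apply, MvPolynomial.coe_monomial]

lemma coe_expand_form (p d : ℕ) (c : (ι →₀ ℕ) → A) :
    ((expand p (form d c) : MvPolynomial ι A) : MvPowerSeries ι A) =
    ∑ s ∈ Sd ι d, MvPowerSeries.monomial (p • s) (c s) := by
  rw [form, map_sum, ← MvPolynomial.coeToMvPowerSeries.ringHom_apply, map_sum]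
  refine Finset.sum_congr rfl fun s _ => ?_
  rw [MvPolynomial.coeToMvPowerSeries.ringHom_apply, MvPolynomial.expand_monomial,
    MvPolynomial.coe_monomial]

lemma fam_eq (d : ℕ) (a : ι → A) (c : (ι →₀ ℕ) → A) (τ : A) (s : ι →₀ ℕ) :
    fam d a c τ s = fam d a c 0 s + τ * mix d c s := by
  classical
  unfold fam mix
  split_ifs <;> ring

lemma fam_pow (p d : ℕ) (hp : 0 < p) (a : ι → A) (c : (ι →₀ ℕ) → A) (hc : ∀ s, c s ^ p = c s)
    (τ : A) (s : ι →₀ ℕ) :
    fam d a c τ s ^ p = fam d a c 0 s ^ p + τ ^ p * mix d c s := by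
  classical
  unfold fam mix
  split_ifs with h
  · ring
  · have h0 : ∑ i, (if s = Finsupp.single i d then a i else 0) = 0 := by
      refine Finset.sum_eq_zero fun i _ => ?_
      rw [if_neg]
      intro hs
      exact h ⟨i, hs⟩
    rw [h0, zero_add, zero_mul, add_zero, zero_pow hp.ne', zero_add, mul_pow, hc]

lemma zero_notMem_Sd {d : ℕ} (hd : 0 < d) : (0 : ι →₀ ℕ) ∉ Sd ι d := by
  rw [mem_Sd]
  simp
  omega

end form

section main

variable {p d : ℕ} [hp : Fact p.Prime] {K R : Type} [CommRing K] [CommRing R] [IsDomain R]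
  (S : Pre p d K R) {ι : Type} [Fintype ι] [DecidableEq ι]

/-- the logarithmic derivative of `∏ θ (c_s x ^ s)` -/
noncomputable def Wd (c : (ι →₀ ℕ) → R) (i : ι) : MvPowerSeries ι R :=
  ∑ s ∈ Sd ι d, (MvPowerSeries.monomial s ((s i : R) * S.pi * c s) -
      MvPowerSeries.monomial (p • s) ((s i : R) * p * S.pi * c s ^ p))

lemma eui_FF (hd : 0 < d) (c : (ι →₀ ℕ) → R) (i : ι) :
    eui i (S.FF (Sd ι d) c) = Wd S c i * S.FF (Sd ι d) c := by
  rw [Pre.FF, Wd]
  exact eui_prod i (Sd ι d) _ _ (fun s hs => S.eui_Fs i s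
    (fun h => zero_notMem_Sd (ι := ι) hd (h ▸ hs)) (c s))

lemma Wd_const (hd : 0 < d) (c : (ι →₀ ℕ) → R) (i : ι) :
    MvPowerSeries.coeff 0 (Wd S c i) = 0 := by
  classical
  rw [Wd, map_sum]
  refine Finset.sum_eq_zero fun s hs => ?_
  have hs0 : s ≠ 0 := fun h => zero_notMem_Sd (ι := ι) hd (h ▸ hs)
  have hs1 : p • s ≠ 0 := by
    intro h
    have := smul_inj hs0 (a := p) (b := 0) (by rw [h, zero_smul])
    exact hp.out.ne_zero this
  rw [map_sub, MvPowerSeries.coeff_monomial, MvPowerSeries.coeff_monomial, if_neg hs0.symm,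
    if_neg hs1.symm, sub_zero]

lemma Wd_eq (a : ι → R) (c : (ι →₀ ℕ) → R) (hc : ∀ s, c s ^ p = c s) (T : R) (i : ι) :
    Wd S (fam d a c T) i + MvPowerSeries.C (S.pi * T ^ p) *
        eui i ((expand p (form d (mix d c)) : MvPolynomial ι R) : MvPowerSeries ι R) =
      Wd S (fam d a c 0) i + MvPowerSeries.C (S.pi * T) *
        eui i ((form d (mix d c) : MvPolynomial ι R) : MvPowerSeries ι R) := by
  classical
  rw [Wd, Wd, coe_form, coe_expand_form, eui_sum, eui_sum, Finset.mul_sum, Finset.mul_sum,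
    ← Finset.sum_add_distrib, ← Finset.sum_add_distrib]
  refine Finset.sum_congr rfl fun s _ => ?_
  rw [eui_monomial, eui_monomial, fam_pow p d hp.out.pos a c hc T s, fam_eq d a c T s]
  have h1 : ∀ (v : ι →₀ ℕ) (x y : R), MvPowerSeries.C x * MvPowerSeries.monomial v y =
      MvPowerSeries.monomial v (x * y) := by
    intro v x y
    ext w
    rw [MvPowerSeries.coeff_C_mul, MvPowerSeries.coeff_monomial, MvPowerSeries.coeff_monomial]
    split_ifs
    · rfl
    · rw [mul_zero]
  rw [h1, h1]
  have h2 : MvPowerSeries.monomial s ((s i : R) * S.pi * (fam d a c 0 s + T * mix d c s)) =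
      MvPowerSeries.monomial s ((s i : R) * S.pi * fam d a c 0 s) +
      MvPowerSeries.monomial s (S.pi * T * ((s i : R) * mix d c s)) := by
    rw [← map_add]; congr 1; ring
  have h3 : MvPowerSeries.monomial (p • s) ((s i : R) * p * S.pi *
      (fam d a c 0 s ^ p + T ^ p * mix d c s)) =
      MvPowerSeries.monomial (p • s) ((s i : R) * p * S.pi * fam d a c 0 s ^ p) +
      MvPowerSeries.monomial (p • s) (S.pi * T ^ p * ((((p • s) i : ℕ) : R) * mix d c s)) := by
    rw [← map_add, Finsupp.smul_apply, smul_eq_mul]; congr 1; push_cast; ring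
  rw [h2, h3]
  ring

lemma const_FF (hd : 0 < d) (c : (ι →₀ ℕ) → R) :
    MvPowerSeries.constantCoeff (S.FF (Sd ι d) c) = 1 := by
  rw [Pre.FF, map_prod]
  refine Finset.prod_eq_one fun s hs => ?_
  have hs0 : s ≠ 0 := fun h => zero_notMem_Sd (ι := ι) hd (h ▸ hs)
  have := S.coeff_Fs s hs0 (c s) 0
  rw [zero_smul, pow_zero, mul_one, S.th_zero] at this
  exact this

/-- solutions of the Euler equations modulo `q` vanish modulo `q` if the constant term does -/
lemma dv_unique (q : R) (hn : ∀ n : ℕ, n ≠ 0 → ∀ y : R, q ∣ (n : R) * y → q ∣ y)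
    (F : MvPowerSeries ι R) (W D : ι → MvPowerSeries ι R)
    (hW : ∀ i, MvPowerSeries.coeff 0 (W i) = 0) (hD : ∀ i, Dv q (D i))
    (h : ∀ i, eui i F = W i * F + D i) (h0 : q ∣ MvPowerSeries.coeff 0 F) : Dv q F := by
  classical
  have key : ∀ n : ℕ, ∀ w : ι →₀ ℕ, w.degree = n → q ∣ MvPowerSeries.coeff w F := by
    intro n
    induction n using Nat.strong_induction_on with
    | _ n ih =>
      intro w hw
      by_cases hw0 : w = 0
      · rw [hw0]; exact h0
      · obtain ⟨i, hi⟩ : ∃ i, w i ≠ 0 := by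
          by_contra hcon
          push Not at hcon
          exact hw0 (Finsupp.ext hcon)
        apply hn (w i) hi
        rw [← coeff_eui, h i, map_add, MvPowerSeries.coeff_mul]
        refine dvd_add (Finset.dvd_sum fun x hx => ?_) (hD i w)
        rw [Finset.HasAntidiagonal.mem_antidiagonal] at hx
        by_cases hx0 : x.1 = 0
        · rw [hx0, hW i, zero_mul]; exact dvd_zero _
        · refine Dvd.dvd.mul_left (ih x.2.degree ?_ x.2 rfl) _
          have h1 : x.1.degree + x.2.degree = n := by rw [← map_add, hx, hw]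
          have h2 : 0 < x.1.degree := Pre.degree_pos hx0
          omega
  exact fun w => key _ w rfl

/-- `FF_T exp (π T ^ p g (x ^ p)) = FF_0 exp (π T g (x))` modulo `T ^ M` -/
lemma FF_exp (hd : 0 < d) (T : R) (k : ℕ) (a : ι → R) (c : (ι →₀ ℕ) → R)
    (hc : ∀ s, c s ^ p = c s)
    (hn : ∀ n : ℕ, n ≠ 0 → ∀ y : R, T ^ (k + 1) ∣ (n : R) * y → T ^ (k + 1) ∣ y) :
    Dv (T ^ (k + 1)) (
      ((expand p (Eh (k + 1) (S.pi * T ^ p) (form d (mix d c))) : MvPolynomial ι R) :
        MvPowerSeries ι R) * S.FF (Sd ι d) (fam d a c T) -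
      ((Eh (k + 1) (S.pi * T) (form d (mix d c)) : MvPolynomial ι R) : MvPowerSeries ι R) *
        S.FF (Sd ι d) (fam d a c 0)) := by
  classical
  rw [expand_Eh, coe_Eh, coe_Eh]
  set G' := ((expand p (form d (mix d c)) : MvPolynomial ι R) : MvPowerSeries ι R) with hG'
  set G := ((form d (mix d c) : MvPolynomial ι R) : MvPowerSeries ι R) with hG
  set F := S.FF (Sd ι d) (fam d a c T) with hF
  set F0 := S.FF (Sd ι d) (fam d a c 0) with hF0
  have hk1 : T ^ (k + 1) ∣ (S.pi * T) ^ (k + 1) := by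
    rw [mul_pow]; exact dvd_mul_left _ _
  have hk2 : T ^ (k + 1) ∣ (S.pi * T ^ p) ^ (k + 1) := by
    rw [mul_pow, ← pow_mul]
    refine Dvd.dvd.mul_left (pow_dvd_pow _ ?_) _
    have := hp.out.pos
    nlinarith
  refine dv_unique (T ^ (k + 1)) hn _
    (fun i => Wd S (fam d a c 0) i + MvPowerSeries.C (S.pi * T) * eui i G)
    (fun i => MvPowerSeries.C (((k + 1 : ℕ) : R) * (S.pi * T) ^ (k + 1)) *
      (G ^ k * eui i G) * F0 -
      MvPowerSeries.C (((k + 1 : ℕ) : R) * (S.pi * T ^ p) ^ (k + 1)) * (G' ^ k * eui i G') * F)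
    ?_ ?_ ?_ ?_
  · intro i
    rw [map_add, Wd_const S hd, MvPowerSeries.coeff_C_mul, coeff_eui]
    simp
  · intro i
    have e1 : MvPowerSeries.C (((k + 1 : ℕ) : R) * (S.pi * T) ^ (k + 1)) *
      (G ^ k * eui i G) * F0 = (G ^ k * eui i G) * F0 *
        MvPowerSeries.C (((k + 1 : ℕ) : R) * (S.pi * T) ^ (k + 1)) := by ring
    have e2 : MvPowerSeries.C (((k + 1 : ℕ) : R) * (S.pi * T ^ p) ^ (k + 1)) *
      (G' ^ k * eui i G') * F = (G' ^ k * eui i G') * F *
        MvPowerSeries.C (((k + 1 : ℕ) : R) * (S.pi * T ^ p) ^ (k + 1)) := by ring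
    rw [e1, e2]
    exact Dv.sub ((Dv.C (Dvd.dvd.mul_left hk1 _)).mul_left _)
      ((Dv.C (Dvd.dvd.mul_left hk2 _)).mul_left _)
  · intro i
    have hW := Wd_eq S a c hc T i
    rw [← hG, ← hG'] at hW
    rw [eui_sub, eui_mul, eui_mul, eui_Ex, eui_Ex, hF, hF0, eui_FF S hd, eui_FF S hd, ← hF, ← hF0]
    linear_combination (Ex (k + 1) (S.pi * T ^ p) G' * F) * hW
  · have h1 : MvPowerSeries.constantCoeff G = 0 := by
      rw [← MvPowerSeries.coeff_zero_eq_constantCoeff_apply, hG, coe_form, map_sum]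
      refine Finset.sum_eq_zero fun s hs => ?_
      have hs0 : s ≠ 0 := fun h => zero_notMem_Sd (ι := ι) hd (h ▸ hs)
      rw [MvPowerSeries.coeff_monomial, if_neg hs0.symm]
    have h2 : MvPowerSeries.constantCoeff G' = 0 := by
      rw [← MvPowerSeries.coeff_zero_eq_constantCoeff_apply, hG', coe_expand_form, map_sum]
      refine Finset.sum_eq_zero fun s hs => ?_
      have hs0 : s ≠ 0 := fun h => zero_notMem_Sd (ι := ι) hd (h ▸ hs)
      have hs1 : p • s ≠ 0 := by
        intro h
        have := smul_inj hs0 (a := p) (b := 0) (by rw [h, zero_smul])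
        exact hp.out.ne_zero this
      rw [MvPowerSeries.coeff_monomial, if_neg hs1.symm]
    rw [MvPowerSeries.coeff_zero_eq_constantCoeff_apply, map_sub, map_mul, map_mul,
      constCoeff_Ex _ (by omega) _ _ h1, constCoeff_Ex _ (by omega) _ _ h2, hF, hF0,
      const_FF S hd, const_FF S hd, sub_self]
    exact dvd_zero _

theorem key (hp4 : 4 ≤ p) (hd : 0 < d) (T : R) (M : ℕ) (hM : 0 < M) (a : ι → R)
    (c : (ι →₀ ℕ) → R) (hc : ∀ s, c s ^ p = c s)
    (hn : ∀ n : ℕ, n ≠ 0 → ∀ y : R, T ^ M ∣ (n : R) * y → T ^ M ∣ y)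
    (hl : ∀ y : R, T ^ M ∣ S.lam * y → T ^ M ∣ y) (V U : ι →₀ ℕ) :
    T ^ M ∣ (∑ x ∈ Finset.HasAntidiagonal.antidiagonal V,
        MvPolynomial.coeff x.1 (Eh M (T ^ p) (form d (mix d c))) *
          S.ker (Sd ι d) (fam d a c T) x.2 U) -
      ∑ s ∈ (Eh M T (form d (mix d c))).support,
        S.ker (Sd ι d) (fam d a c 0) V (U + s) *
          MvPolynomial.coeff s (Eh M T (form d (mix d c))) := by
  classical
  have h0 : (0 : ι →₀ ℕ) ∉ Sd ι d := zero_notMem_Sd hd
  have hdeg : ∀ s ∈ Sd ι d, s.degree ≤ d := fun s hs => ((mem_Sd d s).1 hs).le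
  have hk := fun (c : (ι →₀ ℕ) → R) V U => (S.ker_spec (by omega) (Sd ι d) c h0 hdeg V U).2
  have hl' : ∀ (n : ℕ) (y : R), T ^ M ∣ S.lam ^ n * y → T ^ M ∣ y := by
    intro n
    induction n with
    | zero => intro y hy; simpa using hy
    | succ n ih =>
      intro y hy
      apply ih
      apply hl
      rw [pow_succ] at hy
      have e : S.lam * (S.lam ^ n * y) = S.lam ^ n * S.lam * y := by ring
      rw [e]; exact hy
  apply hl' V.degree
  set g := form d (mix d c) with hg
  have hgh : g.IsHomogeneous d := form_hom d _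
  set E2 := Eh M (T ^ p) g with hE2
  set E1 := Eh M T g with hE1
  have hs2 : ∀ s, MvPolynomial.coeff s (Eh M (S.pi * T ^ p) g) =
      S.lam ^ s.degree * MvPolynomial.coeff s E2 := fun s => coeff_Eh_smul M d (T ^ p) S.lam g hgh s
  have hs1 : ∀ s, MvPolynomial.coeff s (Eh M (S.pi * T) g) =
      S.lam ^ s.degree * MvPolynomial.coeff s E1 := fun s => coeff_Eh_smul M d T S.lam g hgh s
  -- the left side
  have hL : S.lam ^ V.degree * (∑ x ∈ Finset.HasAntidiagonal.antidiagonal V,
        MvPolynomial.coeff x.1 E2 * S.ker (Sd ι d) (fam d a c T) x.2 U) =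
      S.lam ^ U.degree * ∑ x ∈ Finset.HasAntidiagonal.antidiagonal V,
        MvPolynomial.coeff x.1 (Eh M (S.pi * T ^ p) g) * S.Gk (Sd ι d) (fam d a c T) x.2 U := by
    rw [Finset.mul_sum, Finset.mul_sum]
    refine Finset.sum_congr rfl fun x hx => ?_
    rw [Finset.HasAntidiagonal.mem_antidiagonal] at hx
    have h1 := hk (fam d a c T) x.2 U
    rw [hs2, ← hx, map_add, pow_add]
    linear_combination (S.lam ^ x.1.degree * MvPolynomial.coeff x.1 E2) * h1
  have hR : S.lam ^ V.degree * (∑ s ∈ E1.support,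
        S.ker (Sd ι d) (fam d a c 0) V (U + s) * MvPolynomial.coeff s E1) =
      S.lam ^ U.degree * ∑ s ∈ E1.support,
        MvPolynomial.coeff s (Eh M (S.pi * T) g) * S.Gk (Sd ι d) (fam d a c 0) V (U + s) := by
    rw [Finset.mul_sum, Finset.mul_sum]
    refine Finset.sum_congr rfl fun s hs => ?_
    have h1 := hk (fam d a c 0) V (U + s)
    rw [map_add, pow_add] at h1
    rw [hs1]
    linear_combination MvPolynomial.coeff s E1 * h1
  rw [mul_sub, hL, hR, ← mul_sub]
  apply Dvd.dvd.mul_left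
  by_cases hU : U ≤ p • V
  · obtain ⟨k, rfl⟩ : ∃ k, M = k + 1 := ⟨M - 1, by omega⟩
    have hD := FF_exp S hd T k a c hc hn (p • V - U)
    rw [map_sub, ← hg, coeff_expand_mul, coeff_poly_mul _ _ _ E1.support] at hD
    · convert hD using 2
      · -- the left side
        obtain ⟨Φ, hΦ⟩ : ∃ Φ : MvPowerSeries ι R, ∀ v, MvPowerSeries.coeff v Φ =
            S.Gk (Sd ι d) (fam d a c T) v U :=
          ⟨fun v => S.Gk (Sd ι d) (fam d a c T) v U, fun v => rfl⟩
        have h3 : ∑ x ∈ Finset.HasAntidiagonal.antidiagonal V,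
            MvPolynomial.coeff x.1 (Eh (k + 1) (S.pi * T ^ p) g) *
              S.Gk (Sd ι d) (fam d a c T) x.2 U =
            MvPowerSeries.coeff V (((Eh (k + 1) (S.pi * T ^ p) g : MvPolynomial ι R) :
              MvPowerSeries ι R) * Φ) := by
          rw [MvPowerSeries.coeff_mul]
          refine Finset.sum_congr rfl fun x _ => ?_
          rw [MvPolynomial.coeff_coe, hΦ]
        rw [h3, coeff_poly_mul _ _ _ _ (Finset.Subset.refl _)]
        refine Finset.sum_congr rfl fun s _ => ?_
        congr 1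
        have e3 : s ≤ V → p • (V - s) = p • V - p • s := by
          intro _
          ext j
          simp [Nat.mul_sub]
        have e0 : p • s ≤ p • V → s ≤ V := by
          intro h j
          have := h j
          simp only [Finsupp.smul_apply, smul_eq_mul] at this
          exact Nat.le_of_mul_le_mul_left this hp.out.pos
        have e4 : s ≤ V → p • s ≤ p • V := by
          intro h j
          simp only [Finsupp.smul_apply, smul_eq_mul]
          exact Nat.mul_le_mul_left _ (h j)
        have e2 : (p • s ≤ p • V - U) ↔ (s ≤ V ∧ U ≤ p • (V - s)) := by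
          constructor
          · intro h
            have h1 : p • s + U ≤ p • V := (le_tsub_iff_right hU).1 h
            have h2 : s ≤ V := e0 ((le_add_of_nonneg_right (zero_le)).trans h1)
            refine ⟨h2, ?_⟩
            rw [e3 h2]
            exact le_tsub_of_add_le_left h1
          · rintro ⟨h1, h2⟩
            rw [e3 h1] at h2
            have h3 : U + p • s ≤ p • V := (le_tsub_iff_right (e4 h1)).1 h2
            exact le_tsub_of_add_le_left h3
        by_cases h1 : s ≤ V
        · rw [if_pos h1]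
          rw [hΦ, Pre.Gk]
          by_cases h2 : U ≤ p • (V - s)
          · rw [if_pos h2, if_pos (e2.2 ⟨h1, h2⟩), e3 h1, tsub_right_comm]
          · rw [if_neg h2, if_neg (fun h => h2 (e2.1 h).2)]
        · rw [if_neg h1, if_neg (fun h => h1 (e2.1 h).1)]
      · refine Finset.sum_congr rfl fun s _ => ?_
        congr 1
        rw [Pre.Gk]
        have e1 : U + s ≤ p • V ↔ s ≤ p • V - U := by
          rw [add_comm]; exact (le_tsub_iff_right hU).symm
        simp only [e1, tsub_add_eq_tsub_tsub]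
    · intro s hs
      rw [MvPolynomial.mem_support_iff] at hs ⊢
      intro h
      apply hs
      rw [hs1, h, mul_zero]
  · have h1 : ∀ x ∈ Finset.HasAntidiagonal.antidiagonal V,
        MvPolynomial.coeff x.1 (Eh M (S.pi * T ^ p) g) *
          S.Gk (Sd ι d) (fam d a c T) x.2 U = 0 := by
      intro x hx
      rw [Finset.HasAntidiagonal.mem_antidiagonal] at hx
      rw [Pre.Gk, if_neg, mul_zero]
      intro h
      apply hU
      refine h.trans ?_
      intro j
      simp only [Finsupp.smul_apply, smul_eq_mul]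
      refine Nat.mul_le_mul_left _ ?_
      rw [← hx, Finsupp.add_apply]
      exact Nat.le_add_left _ _
    have h2 : ∀ s ∈ E1.support, MvPolynomial.coeff s (Eh M (S.pi * T) g) *
        S.Gk (Sd ι d) (fam d a c 0) V (U + s) = 0 := by
      intro s _
      rw [Pre.Gk, if_neg, mul_zero]
      exact fun h => hU ((le_add_of_nonneg_right (zero_le)).trans h)
    rw [Finset.sum_eq_zero h1, Finset.sum_eq_zero h2, sub_zero]
    exact dvd_zero _

end main

/-- (KExp) the kernel and the truncated exponentials -/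
theorem h_KExp : Pool.Agent.H887.BK.S_KExp := by
  intro ι _ _ p d hp K R _ _ _ S a c M V U hp4 hd hM ha hc
  have hch := S.charZero
  have hdiv : ∀ (r : R), r ≠ 0 → ∀ y : PowerSeries R,
      (PowerSeries.X : PowerSeries R) ^ M ∣ PowerSeries.C r * y → PowerSeries.X ^ M ∣ y := by
    intro r hr y hy
    rw [PowerSeries.X_pow_dvd_iff] at hy ⊢
    intro m hm
    have := hy m hm
    rw [PowerSeries.coeff_C_mul] at this
    exact (mul_eq_zero.1 this).resolve_left hr
  obtain ⟨z, hz⟩ := key S.ps hp4 hd (PowerSeries.X : PowerSeries R) M hM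
    (fun i => PowerSeries.C (a i)) (fun s => PowerSeries.C (c s))
    (fun s => by rw [← map_pow, hc]) (by
      intro n hn y hy
      apply hdiv (n : R) (Nat.cast_ne_zero.2 hn) y
      rwa [map_natCast]) (by
      intro y hy
      exact hdiv S.lam S.lam_ne y hy) V U
  exact ⟨z, by rw [← hz]; ring⟩

section gradings

variable {ι A : Type} [CommRing A]

lemma prod_supp {T : Type} (P : (ι →₀ ℕ) → Prop) (h0 : P 0)
    (hadd : ∀ v w, P v → P w → P (v + w)) (s : Finset T) (F : T → MvPowerSeries ι A)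
    (hF : ∀ t ∈ s, ∀ w, ¬ P w → MvPowerSeries.coeff w (F t) = 0) :
    ∀ w, ¬ P w → MvPowerSeries.coeff w (∏ t ∈ s, F t) = 0 := by
  classical
  induction s using Finset.induction_on with
  | empty =>
    intro w hw
    rw [Finset.prod_empty, MvPowerSeries.coeff_one, if_neg]
    rintro rfl
    exact hw h0
  | insert t s ht ih =>
    intro w hw
    rw [Finset.prod_insert ht, MvPowerSeries.coeff_mul]
    refine Finset.sum_eq_zero fun x hx => ?_
    rw [Finset.HasAntidiagonal.mem_antidiagonal] at hx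
    by_cases h1 : P x.1
    · by_cases h2 : P x.2
      · exact absurd (hx ▸ hadd _ _ h1 h2) hw
      · rw [ih (fun l hl => hF l (by simp [hl])) x.2 h2, mul_zero]
    · rw [hF t (by simp) x.1 h1, zero_mul]

end gradings

lemma modEq_sub {d p v u w : ℕ} (hpd : p ≡ 1 [MOD d]) (h : w + u = p * v) (hw : d ∣ w) :
    v ≡ u [MOD d] := by
  have h1 : w + u ≡ 0 + u [MOD d] := Nat.ModEq.add_right u ((Nat.modEq_zero_iff_dvd).2 hw)
  have h2 : p * v ≡ 1 * v [MOD d] := Nat.ModEq.mul_right v hpd
  rw [h] at h1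
  rw [one_mul] at h2
  rw [zero_add] at h1
  exact h2.symm.trans h1

lemma ker_zero_of_Gk {p d : ℕ} [hp : Fact p.Prime] {K R : Type} [CommRing K] [CommRing R]
    [IsDomain R] (S : Pre p d K R) {ι : Type} [Fintype ι] [DecidableEq ι] (hp4 : 4 ≤ p)
    (hd : 0 < d) (c : (ι →₀ ℕ) → R) (V U : ι →₀ ℕ) (h : S.Gk (Sd ι d) c V U = 0) :
    S.ker (Sd ι d) c V U = 0 := by
  have h1 := (S.ker_spec (by omega) (Sd ι d) c (zero_notMem_Sd hd)
    (fun s hs => ((mem_Sd d s).1 hs).le) V U).2
  rw [h, mul_zero] at h1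
  exact (mul_eq_zero.1 h1).resolve_left (pow_ne_zero _ S.lam_ne)

/-- (KGr) gradings of the kernel -/
theorem h_KGr : Pool.Agent.H887.BK.S_KGr := by
  intro ι _ _ p d hp K R _ _ _ S hp4 hd hpd
  classical
  constructor
  · intro c V U hVU
    apply ker_zero_of_Gk S hp4 hd
    rw [Pre.Gk]
    split_ifs with hU
    · have h1 : (p • V - U).degree + U.degree = p * V.degree := by
        rw [← map_add, tsub_add_cancel_of_le hU, map_nsmul, smul_eq_mul]
      refine prod_supp (fun w : ι →₀ ℕ => d ∣ w.degree) (by simp) (fun v w hv hw => ?_) _ _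
        (fun s hs w hw => ?_) _ (fun hw => hVU (modEq_sub hpd h1 hw))
      · simp only [map_add] at *
        exact dvd_add hv hw
      · apply S.coeff_Fs_ne
        rintro j rfl
        apply hw
        rw [map_nsmul, smul_eq_mul, (mem_Sd d s).1 hs]
        exact dvd_mul_left _ _
    · rfl
  · rintro a c V U ⟨i, hi⟩
    apply ker_zero_of_Gk S hp4 hd
    rw [Pre.Gk]
    split_ifs with hU
    · have h1 : (p • V - U) i + U i = p * V i := by
        rw [← Finsupp.add_apply, tsub_add_cancel_of_le hU, Finsupp.smul_apply, smul_eq_mul]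
      refine prod_supp (fun w : ι →₀ ℕ => d ∣ w i) (by simp) (fun v w hv hw => ?_) _ _
        (fun s hs w hw => ?_) _ (fun hw => hi (modEq_sub hpd h1 hw))
      · simp only [Finsupp.add_apply] at *
        exact dvd_add hv hw
      · by_cases hsd : ∃ i, s = Finsupp.single i d
        · obtain ⟨i', rfl⟩ := hsd
          apply S.coeff_Fs_ne
          rintro j rfl
          apply hw
          rw [Finsupp.smul_apply, smul_eq_mul, Finsupp.single_apply]
          split_ifs
          · exact dvd_mul_left _ _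
          · rw [mul_zero]; exact dvd_zero _
        · have hf : fam d a c 0 s = 0 := by
            unfold fam
            rw [if_neg hsd, zero_mul, add_zero]
            refine Finset.sum_eq_zero fun i _ => ?_
            rw [if_neg]
            intro hs
            exact hsd ⟨i, hs⟩
          rw [hf]
          by_cases hw' : ∃ j : ℕ, j • s = w
          · obtain ⟨j, rfl⟩ := hw'
            have hs0 : s ≠ 0 := fun h => zero_notMem_Sd (ι := ι) hd (h ▸ hs)
            rw [S.coeff_Fs s hs0, zero_pow, mul_zero]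
            rintro rfl
            apply hw
            simp
          · push Not at hw'
            exact S.coeff_Fs_ne _ _ _ hw'
    · rfl

end Pool.Agent.H200.KE
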